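import Pool.Agent.W872.MX.Fin
import Pool.Agent.W40.MX.WGT
import Pool.Agent.W616.MX.SUM
import Pool.Agent.W576.MX.LOV
import Pool.Agent.W717.MX.EMB
import Pool.Agent.W765.MX.TUR
import Pool.Agent.W412.MX.ODD
import Pool.Agent.W753.MX.FIVE
import Pool.Agent.W369.MX.RND
import Pool.Agent.W741.MX.STEP
import Pool.Agent.W400.MX.EMBS
import Pool.Agent.W657.MX.TB
import Pool.Agent.W503.MX.INT
import Pool.Agent.W138.MX.MON
import Pool.Agent.W496.MX.GAD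
import Pool.Agent.W711.MX.RNDE

/-! MP_a05470_co: minimum extremal density of a 2-coloured complete graph.

A 2-coloured complete graph `H` without green edges is given by its red graph `R` on `Fin h`
(the blue graph is `Rᶜ`); `ex p n R` is `ex_p(n, H)`, and `μ_p(H)` is the limit of
`ex p n R / (n choose 2)`. -/

set_option autoImplicit false

namespace Pool.Agent.Results.MP_a05470_co.DensityBounds

open Finset Filter W872.MX

theorem result :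
    -- (1) universal bound
    (∀ (h : ℕ) (R : SimpleGraph (Fin h)), 2 ≤ h → ∃ p μ : ℝ, 0 ≤ p ∧ p ≤ 1 ∧
      Tendsto (fun n : ℕ => ex p n R / (n.choose 2 : ℝ)) atTop (nhds μ) ∧
      μ ≤ 1 - 3 / (4 * ((h : ℝ) - 1))) ∧
    -- (2) matchings of size ν in both colours
    (∀ (h : ℕ) (R : SimpleGraph (Fin h)) (ν : ℕ), 2 ≤ h → 2 * ν < h →
      HasRB R univ ν 0 → HasRB R univ 0 ν → ∃ μ : ℝ,
      Tendsto (fun n : ℕ => ex (1 / 2) n R / (n.choose 2 : ℝ)) atTop (nhds μ) ∧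
      μ ≤ 1 - 1 / (2 * ((h : ℝ) - 1 - ν))) ∧
    -- (3) exact extremal numbers
    (∀ (h : ℕ) (R : SimpleGraph (Fin h)), 2 ≤ h → PM R univ → ∀ n : ℕ,
      ex (1 / 2) n R = ((SimpleGraph.turanGraph n (h - 1)).edgeSet.ncard : ℝ)) ∧
    -- (4) adding dominating vertices
    (∀ (h : ℕ) (R : SimpleGraph (Fin h)) (T : Finset (Fin h)) (k l : ℕ), 2 ≤ h →
      Peel R T univ k l → T.Nonempty → PM R T → ∃ p : ℝ, 0 ≤ p ∧ p ≤ 1 ∧
      Tendsto (fun n : ℕ => ex p n R / (n.choose 2 : ℝ)) atTop (nhds (1 - 1 / ((h : ℝ) - 1)))) ∧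
    -- (5) odd order criterion
    (∀ (r : ℕ) (R : SimpleGraph (Fin (2 * r + 1))),
      HasRB R univ r 0 → HasRB R univ 0 r → PM R univ) ∧
    -- (6) even order criterion
    (∀ (t : ℕ) (R : SimpleGraph (Fin (2 * t))) (Q : Finset (Fin (2 * t))), Q.card = 4 →
      HasRB R Q 2 0 → HasRB R Q 1 1 → HasRB R Q 0 2 →
      HasRB R Qᶜ (t - 2) 0 → HasRB R Qᶜ 0 (t - 2) → PM R univ) ∧
    -- (7) almost all colourings
    Tendsto (fun n : ℕ => ((Nat.card {R : SimpleGraph (Fin n) // PM R univ} : ℕ) : ℝ) /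
      ((Nat.card (SimpleGraph (Fin n)) : ℕ) : ℝ)) atTop (nhds 1) ∧
    -- (8) orders 2, 3, 5 and 4
    (∀ (h : ℕ) (R : SimpleGraph (Fin h)), h = 2 ∨ h = 3 ∨ h = 5 → ∃ p : ℝ, 0 ≤ p ∧ p ≤ 1 ∧
      Tendsto (fun n : ℕ => ex p n R / (n.choose 2 : ℝ)) atTop (nhds (1 - 1 / ((h : ℝ) - 1)))) ∧
    (∀ R : SimpleGraph (Fin 4),
      (∃ p : ℝ, 0 ≤ p ∧ p ≤ 1 ∧
        Tendsto (fun n : ℕ => ex p n R / (n.choose 2 : ℝ)) atTop (nhds (1 - 1 / 3))) ∨
      ∃ e : Fin 4 ≃ Fin 4, (∀ x y, R.Adj (e x) (e y) ↔ x ≠ y ∧ x.val / 2 = y.val / 2) ∨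
        (∀ x y, R.Adj (e x) (e y) ↔ x.val / 2 ≠ y.val / 2)) ∧
    -- (9) the trivial lower bound, for every p
    (∀ (n h : ℕ) (p : ℝ) (R : SimpleGraph (Fin h)), 2 ≤ h → 0 ≤ p → p ≤ 1 →
      ((SimpleGraph.turanGraph n (h - 1)).edgeSet.ncard : ℝ) ≤ ex p n R) :=
  finalThm Pool.Agent.W40.MX.main Pool.Agent.W616.MX.main W576.MX.LOV.main
    Pool.Agent.W717.MX.EMB.main Pool.Agent.W765.MX.main Pool.Agent.W412.MX.main
    Pool.Agent.W753.MX.main W369.MX.main W741.MX.STEP.main Pool.Agent.W400.MX.EMBS.main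
    W657.MX.main Pool.Agent.W503.MX.main W138.MX.main Pool.Agent.W496.MX.GAD.main
    Pool.Agent.W711.MX.main

end Pool.Agent.Results.MP_a05470_co.DensityBounds
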